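import Pool.Agent.Mg.Fcf0a82q.G91b0b6

open Pool.Agent.MP_f58063_ag Pool.Agent.MP_cf0a82_ag

/-- Outside the zero loci of countably many nonzero modular functions, the locus of
positive-dimensional normalized orbits of degree `k` of `ℂ^g / (D ℤ^g + τ ℤ^g)` contains no
`k`-dimensional germ. -/
theorem Pool.Agent.Results.MP_cf0a82_ag.Full.result (g k : ℕ) (hk : 2 ≤ k) :
    ∃ 𝓕 : Set (Subgroup (Sp g) × (Mat g → ℂ) × (Mat g → ℂ)), 𝓕.Countable ∧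
      (∀ F ∈ 𝓕, F.1.FiniteIndex ∧ IsModFun F.1 F.2.1 F.2.2 ∧
        ∃ τ ∈ Siegel g, F.2.1 τ ≠ 0 ∧ F.2.2 τ ≠ 0) ∧
      ∀ τ ∈ Siegel g, (∀ F ∈ 𝓕, F.2.2 τ ≠ 0 → F.2.1 τ ≠ 0) →
        ∀ D : Fin g → ℕ, (∀ i, 0 < D i) → ∀ p : Fin g → ℂ, ¬ DimGE (ZA D τ k) p k := by
  obtain ⟨𝓕, h1, h2, h3⟩ := main g k hk
  exact ⟨𝓕, h1, h2, fun τ hτ h D _ p => h3 τ hτ h D p⟩
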