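import Pool.Agent.MP_cf0a82_ag.Quad

open Pool.Agent.MP_f58063_ag Pool.Agent.MP_cf0a82_ag

/-- Let `g ≥ 3` and `k ≤ (g ^ 2 - 3 g + 8) / 4`. Outside the zero loci of countably many nonzero
modular functions, no effective zero-cycle of degree `k` on `ℂ^g / (D ℤ^g + τ ℤ^g)` has a
positive-dimensional orbit. -/
theorem Pool.Agent.Results.MP_cf0a82_ag.Quadratic.result (g k : ℕ) (hg : 3 ≤ g)
    (hk : 4 * k + 3 * g ≤ g ^ 2 + 8) :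
    ∃ 𝓕 : Set (Subgroup (Sp g) × (Mat g → ℂ) × (Mat g → ℂ)), 𝓕.Countable ∧
      (∀ F ∈ 𝓕, F.1.FiniteIndex ∧ IsModFun F.1 F.2.1 F.2.2 ∧
        ∃ τ ∈ Siegel g, F.2.1 τ ≠ 0 ∧ F.2.2 τ ≠ 0) ∧
      ∀ τ ∈ Siegel g, (∀ F ∈ 𝓕, F.2.2 τ ≠ 0 → F.2.1 τ ≠ 0) →
        ∀ D : Fin g → ℕ, (∀ i, 0 < D i) → ∀ x : Fin k → Fin g → ℂ,
          ¬ PosOrb D τ k (cyc D τ x) := by
  obtain ⟨𝓕, h1, h2, h3⟩ := quad_main g k hg hk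
  exact ⟨𝓕, h1, h2, fun τ hτ h D _ x => h3 τ hτ h D x⟩
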